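import Pool.Agent.Results.MP_838239_al.ClassFunctions

/-!
MP_bc5a73_al, `G = Alt(n)`.  For every `δ` in `(0, 1]` there is `m₀` such that for every `m ≥ m₀` there
is `c > 0` with: if `x_1, …, x_m` are independent uniform elements of `Alt(n)` and `S` is the set of the
`x_i` and their inverses, then with probability tending to `1` every subset `A` of `Alt(n)` which has at
most `|Alt(n)| / 2` elements and is invariant under conjugation by some subgroup `H` of index at most
`exp (n ^ (1 - δ))` (for example the pointwise stabiliser of `n ^ (1 - 2 δ)` points) satisfies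
`|A S ∖ A| ≥ c |A|`.

Proof.  By `MP_838239_al.ClassFunctions` the `t`-th power of the step `Q` of the lazy walk decays
exponentially on the functions `f` of mean zero which are invariant under conjugation by `H`, for
`t` a large multiple of `n ^ (1 - δ)`.  As `‖Q ^ s f‖²` is logarithmically convex in `s`, already the
first step satisfies `‖Q f‖² ≤ (1 - ε / 4) ‖f‖²`.  If `f` is the indicator function of `A` minus its
mean, then `Q f` differs from `f` only at the elements of `A S ∖ A` and their neighbours.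
-/

namespace Pool.Agent.Results.MP_bc5a73_al.InvariantSetsExpand
open Finset Filter Topology
open Pool.Agent.Results.MP_838239_al.ClassFunctions

noncomputable section

/-- the elements of `A S` which are not in `A`, where `S = {x_i, x_i⁻¹}` -/
def boundary {G : Type} [Group G] [Fintype G] {m : ℕ} (x : Fin m → G) (A : Finset G) : Finset G :=
  open Classical in univ.filter fun g => g ∉ A ∧ ∃ a ∈ A, ∃ i, g = a * x i ∨ g = a * (x i)⁻¹

lemma expand {G : Type} [Group G] [Fintype G] {m : ℕ} (x : Fin m → G) (hm : 1 ≤ m) (A : Finset G)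
    (hA : 2 * #A ≤ Fintype.card G) (ε η : ℝ) (hη : η ≤ ε / 2) (hε : 0 < ε)
    (hmix : ∀ f : G → ℝ, (∀ g, f g =
      (open Classical in if g ∈ A then (1 : ℝ) else 0) - #A / Fintype.card G) →
      ∑ g, (lazyStep x f g) ^ 2 ≤ ((1 - ε) + η) * ∑ g, f g ^ 2) :
    ε / (4 * (2 * m + 1)) * #A ≤ #(boundary x A) := by
  classical
  have hG0 : (0 : ℝ) < Fintype.card G := by exact_mod_cast Fintype.card_pos
  have hm0 : (0 : ℝ) < m := by exact_mod_cast hm
  set a : ℝ := #A / Fintype.card G with ha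
  have ha0 : 0 ≤ a := by positivity
  have ha2 : a ≤ 1 / 2 := by
    rw [ha, div_le_div_iff₀ hG0 (by norm_num)]
    have : (2 * #A : ℝ) ≤ Fintype.card G := by exact_mod_cast hA
    linarith
  have haG : a * Fintype.card G = #A := by
    rw [ha]
    field_simp
  set f : G → ℝ := fun g => (if g ∈ A then (1 : ℝ) else 0) - a with hf
  have h1 := hmix f (fun g => by rw [hf])
  -- the norm of f
  have h2 : ∑ g, f g ^ 2 = #A * (1 - a) := by
    have h3 : ∀ g : G, f g ^ 2 = (if g ∈ A then (1 : ℝ) else 0) * (1 - 2 * a) + a ^ 2 := by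
      intro g
      rw [hf]
      by_cases hg : g ∈ A
      · simp only [hg, if_true]; ring
      · simp only [hg, if_false]; ring
    rw [sum_congr rfl fun g _ => h3 g, sum_add_distrib, ← sum_mul, sum_const, card_univ,
      nsmul_eq_mul]
    have h4 : ∑ g : G, (if g ∈ A then (1 : ℝ) else 0) = #A := by simp
    rw [h4]
    nlinarith
  set N : Finset G := univ.filter fun g => lazyStep x f g ≠ f g with hN
  have h3 : ∑ g, f g ^ 2 - ∑ g, (lazyStep x f g) ^ 2 ≤ #N := by
    rw [← sum_sub_distrib]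
    have h4 : ∀ g ∈ (univ : Finset G), f g ^ 2 - (lazyStep x f g) ^ 2 ≤
        if lazyStep x f g ≠ f g then (1 : ℝ) else 0 := by
      intro g _
      by_cases hg : lazyStep x f g ≠ f g
      · rw [if_pos hg]
        have h5 : f g ^ 2 ≤ 1 := by
          rw [hf]
          by_cases hgA : g ∈ A
          · simp only [hgA, if_true]; nlinarith
          · simp only [hgA, if_false]; nlinarith
        nlinarith [sq_nonneg (lazyStep x f g)]
      · rw [if_neg hg]
        push Not at hg
        rw [hg, sub_self]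
    refine (sum_le_sum h4).trans (le_of_eq ?_)
    rw [hN, card_filter]
    push_cast
    rfl
  set B := boundary x A with hB
  have hBm : ∀ g a' : G, g ∉ A → a' ∈ A → (∃ i, g = a' * x i ∨ g = a' * (x i)⁻¹) → g ∈ B := by
    intro g a' h5 h6 h7
    rw [hB, boundary, mem_filter]
    exact ⟨mem_univ _, h5, a', h6, h7⟩
  have h4 : N ⊆ B ∪ ((univ : Finset (Fin m)).biUnion fun i => B.image fun b => b * (x i)⁻¹) ∪
      ((univ : Finset (Fin m)).biUnion fun i => B.image fun b => b * x i) := by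
    intro g hg
    rw [hN, mem_filter] at hg
    have hg := hg.2
    rw [mem_union, mem_union]
    by_contra hcon
    push Not at hcon
    obtain ⟨⟨c1, c2⟩, c3⟩ := hcon
    apply hg
    have key : ∀ i, f (g * x i) = f g ∧ f (g * (x i)⁻¹) = f g := by
      intro i
      by_cases hgA : g ∈ A
      · have d1 : g * x i ∈ A := by
          by_contra hd
          apply c2
          rw [mem_biUnion]
          exact ⟨i, mem_univ _, mem_image.2 ⟨g * x i, hBm _ g hd hgA ⟨i, Or.inl rfl⟩, by group⟩⟩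
        have d2 : g * (x i)⁻¹ ∈ A := by
          by_contra hd
          apply c3
          rw [mem_biUnion]
          exact ⟨i, mem_univ _, mem_image.2 ⟨g * (x i)⁻¹, hBm _ g hd hgA ⟨i, Or.inr rfl⟩,
            by group⟩⟩
        rw [hf]
        simp only [hgA, d1, d2, if_true, and_self]
      · have d1 : g * x i ∉ A := fun hd =>
          c1 (hBm g (g * x i) hgA hd ⟨i, Or.inr (by group)⟩)
        have d2 : g * (x i)⁻¹ ∉ A := fun hd =>
          c1 (hBm g (g * (x i)⁻¹) hgA hd ⟨i, Or.inl (by group)⟩)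
        rw [hf]
        simp only [hgA, d1, d2, if_false, and_self]
    unfold lazyStep
    have d3 : ∑ i, (f (g * x i) + f (g * (x i)⁻¹)) = m * (2 * f g) := by
      rw [sum_congr rfl fun i _ => by rw [(key i).1, (key i).2], sum_const, card_univ,
        Fintype.card_fin, nsmul_eq_mul]
      ring
    rw [d3]
    field_simp
    ring
  have h5 : (#N : ℝ) ≤ (2 * m + 1) * #B := by
    have e1 : #N ≤ #B + m * #B + m * #B := by
      refine (card_le_card h4).trans ((card_union_le _ _).trans ?_)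
      refine Nat.add_le_add ((card_union_le _ _).trans ?_) ?_
      · refine Nat.add_le_add le_rfl (card_biUnion_le.trans ?_)
        refine (sum_le_sum fun i _ => card_image_le).trans ?_
        rw [sum_const, card_univ, Fintype.card_fin, smul_eq_mul]
      · refine card_biUnion_le.trans ((sum_le_sum fun i _ => card_image_le).trans ?_)
        rw [sum_const, card_univ, Fintype.card_fin, smul_eq_mul]
    have e2 : (#N : ℝ) ≤ #B + m * #B + m * #B := by exact_mod_cast e1
    linarith
  have h6 : (0 : ℝ) ≤ #A := Nat.cast_nonneg _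
  have h7 : (#A : ℝ) / 2 ≤ ∑ g, f g ^ 2 := by
    rw [h2]
    nlinarith
  have h8 : ε / 2 * ∑ g, f g ^ 2 ≤ (2 * m + 1) * #B := by
    have h9 : (0 : ℝ) ≤ ∑ g, f g ^ 2 := by linarith
    nlinarith
  rw [div_mul_eq_mul_div, div_le_iff₀ (by positivity)]
  nlinarith

lemma self_adj {G : Type} [Group G] [Fintype G] {m : ℕ} (x : Fin m → G) (f h : G → ℝ) :
    ∑ g, lazyStep x f g * h g = ∑ g, f g * lazyStep x h g := by
  have h1 : ∀ s : G, ∑ g, f (g * s) * h g = ∑ g, f g * h (g * s⁻¹) := by
    intro s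
    rw [← Equiv.sum_comp (Equiv.mulRight s) (fun g => f g * h (g * s⁻¹))]
    refine sum_congr rfl fun g _ => ?_
    simp
  have h2 : ∑ g, (∑ i, (f (g * x i) + f (g * (x i)⁻¹))) * h g =
      ∑ g, f g * ∑ i, (h (g * x i) + h (g * (x i)⁻¹)) := by
    simp_rw [sum_mul, mul_sum]
    rw [sum_comm, sum_comm (γ := G)]
    refine sum_congr rfl fun i _ => ?_
    simp_rw [add_mul, mul_add]
    rw [sum_add_distrib, sum_add_distrib, h1 (x i), h1 (x i)⁻¹, inv_inv]
    ring
  have h3 : ∑ g, lazyStep x f g * h g = (∑ g, f g * h g) / 2 +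
      (∑ g, (∑ i, (f (g * x i) + f (g * (x i)⁻¹))) * h g) / (2 * m) / 2 := by
    rw [sum_div, sum_div, sum_div, ← sum_add_distrib]
    refine sum_congr rfl fun g _ => ?_
    unfold lazyStep
    ring
  have h4 : ∑ g, f g * lazyStep x h g = (∑ g, f g * h g) / 2 +
      (∑ g, f g * ∑ i, (h (g * x i) + h (g * (x i)⁻¹))) / (2 * m) / 2 := by
    rw [sum_div, sum_div, sum_div, ← sum_add_distrib]
    refine sum_congr rfl fun g _ => ?_
    unfold lazyStep
    ring
  rw [h3, h4, h2]

lemma conv {G : Type} [Group G] [Fintype G] {m : ℕ} (x : Fin m → G) (f : G → ℝ) (r : ℝ)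
    (hr : 0 ≤ r) (h1 : r * ∑ g, f g ^ 2 ≤ ∑ g, (lazyStep x f g) ^ 2) (t : ℕ) :
    r ^ t * ∑ g, f g ^ 2 ≤ ∑ g, ((lazyStep x)^[t] f g) ^ 2 := by
  set a : ℕ → ℝ := fun s => ∑ g, ((lazyStep x)^[s] f g) ^ 2 with ha
  have ha0 : ∀ s, 0 ≤ a s := fun s => sum_nonneg fun g _ => sq_nonneg _
  have hc : ∀ s, a (s + 1) ^ 2 ≤ a s * a (s + 2) := by
    intro s
    have e1 : a (s + 1) = ∑ g, (lazyStep x)^[s] f g * (lazyStep x)^[s + 2] f g := by
      have e2 := self_adj x ((lazyStep x)^[s] f) ((lazyStep x)^[s + 1] f)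
      rw [← Function.iterate_succ_apply' (lazyStep x) (s + 1) f,
        ← Function.iterate_succ_apply' (lazyStep x) s f] at e2
      rw [ha, ← e2]
      refine sum_congr rfl fun g _ => ?_
      ring
    rw [e1]
    exact sum_mul_sq_le_sq_mul_sq _ _ _
  have hs : ∀ s, r * a s ≤ a (s + 1) := by
    intro s
    induction s with
    | zero => exact h1
    | succ s ih =>
      rcases (ha0 (s + 1)).eq_or_lt with h0 | h0
      · rw [← h0, mul_zero]
        exact ha0 _
      · have h2 := hc s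
        have h3 : 0 < a s := by
          rcases (ha0 s).eq_or_lt with h4 | h4
          · rw [← h4, zero_mul] at h2
            nlinarith
          · exact h4
        have h5 : r * a (s + 1) * a s ≤ a (s + 2) * a s := by nlinarith
        exact le_of_mul_le_mul_right h5 h3
  have ht : ∀ t, r ^ t * a 0 ≤ a t := by
    intro t
    induction t with
    | zero => simp
    | succ t ih =>
      calc r ^ (t + 1) * a 0 = r * (r ^ t * a 0) := by ring
        _ ≤ r * a t := mul_le_mul_of_nonneg_left ih hr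
        _ ≤ a (t + 1) := hs t
  exact ht t

lemma numbers (δ : ℝ) (hδ : 0 < δ) (hδ1 : δ ≤ 1) (ε : ℝ) (hε : 0 < ε) (hε1 : ε ≤ 1) :
    ∀ᶠ n : ℕ in atTop, ∃ t : ℕ, ∀ I : ℝ, 0 ≤ I → I ≤ Real.exp ((n : ℝ) ^ (1 - δ)) →
      I * ((1 - ε) ^ t + Real.exp (-(n : ℝ) ^ (1 - δ / 2))) < (1 - ε / 4) ^ t := by
  have h1 : ∀ᶠ n : ℕ in atTop, (8 : ℝ) ≤ (n : ℝ) ^ (δ / 2) :=
    ((tendsto_rpow_atTop (by linarith : 0 < δ / 2)).comp
      tendsto_natCast_atTop_atTop).eventually_ge_atTop 8
  filter_upwards [h1, eventually_ge_atTop 1] with n h1 hn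
  have hn1 : (1 : ℝ) ≤ n := by exact_mod_cast hn
  have hn0 : (0 : ℝ) < n := by linarith
  set Y : ℝ := (n : ℝ) ^ (1 - δ) with hY
  have hY1 : 1 ≤ Y := Real.one_le_rpow hn1 (by linarith)
  refine ⟨⌈(4 / ε) * Y⌉₊, fun I hI0 hI => ?_⟩
  set t : ℕ := ⌈(4 / ε) * Y⌉₊ with ht
  have ht1 : (4 / ε) * Y ≤ t := Nat.le_ceil _
  have ht2 : (t : ℝ) ≤ (4 / ε) * Y + 1 := (Nat.ceil_lt_add_one (by positivity)).le
  have ht3 : 4 * Y ≤ ε * t := by
    have := mul_le_mul_of_nonneg_left ht1 hε.le
    rwa [← mul_assoc, mul_div_cancel₀ _ hε.ne'] at this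
  have ht4 : ε * t ≤ 4 * Y + 1 := by
    have := mul_le_mul_of_nonneg_left ht2 hε.le
    rw [mul_add, ← mul_assoc, mul_div_cancel₀ _ hε.ne'] at this
    linarith
  have g1 : (1 - ε) ^ t ≤ Real.exp (-(ε * t)) := by
    have g2 : 1 - ε ≤ Real.exp (-ε) := by
      have := Real.add_one_le_exp (-ε)
      linarith
    calc (1 - ε) ^ t ≤ Real.exp (-ε) ^ t := pow_le_pow_left₀ (by linarith) g2 _
      _ = Real.exp (-(ε * t)) := by
          rw [← Real.exp_nat_mul]
          congr 1
          ring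
  have g3 : Real.exp (-(ε * t / 2)) ≤ (1 - ε / 4) ^ t := by
    have g4 : Real.exp (-(ε / 2)) ≤ 1 - ε / 4 := by
      have g5 : 1 + ε / 2 ≤ Real.exp (ε / 2) := by
        have := Real.add_one_le_exp (ε / 2)
        linarith
      rw [Real.exp_neg, inv_eq_one_div, div_le_iff₀ (Real.exp_pos _)]
      have g6 := mul_le_mul_of_nonneg_left g5 (by linarith : 0 ≤ 1 - ε / 4)
      nlinarith
    calc Real.exp (-(ε * t / 2)) = Real.exp (-(ε / 2)) ^ t := by
          rw [← Real.exp_nat_mul]
          congr 1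
          ring
      _ ≤ (1 - ε / 4) ^ t := pow_le_pow_left₀ (Real.exp_pos _).le g4 _
  have g7 : 8 * Y ≤ (n : ℝ) ^ (1 - δ / 2) := by
    have g8 : (n : ℝ) ^ (1 - δ / 2) = (n : ℝ) ^ (δ / 2) * Y := by
      rw [hY, ← Real.rpow_add hn0]
      congr 1
      ring
    rw [g8]
    exact mul_le_mul_of_nonneg_right h1 (by linarith)
  have hexp : Real.exp (-1 : ℝ) < 1 / 2 := by
    rw [Real.exp_neg, inv_eq_one_div, div_lt_div_iff₀ (Real.exp_pos _) (by norm_num)]
    linarith [Real.exp_one_gt_d9]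
  have k1 : I * (1 - ε) ^ t < Real.exp (-(ε * t / 2)) / 2 := by
    calc I * (1 - ε) ^ t ≤ Real.exp Y * Real.exp (-(ε * t)) := by
          refine mul_le_mul hI g1 (pow_nonneg (by linarith) _) (Real.exp_pos _).le
      _ = Real.exp (-(ε * t / 2)) * Real.exp (Y - ε * t / 2) := by
          rw [← Real.exp_add, ← Real.exp_add]
          congr 1
          ring
      _ ≤ Real.exp (-(ε * t / 2)) * Real.exp (-1) := by
          refine mul_le_mul_of_nonneg_left (Real.exp_le_exp.2 (by linarith)) (Real.exp_pos _).le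
      _ < Real.exp (-(ε * t / 2)) * (1 / 2) := mul_lt_mul_of_pos_left hexp (Real.exp_pos _)
      _ = Real.exp (-(ε * t / 2)) / 2 := by ring
  have k2 : I * Real.exp (-(n : ℝ) ^ (1 - δ / 2)) < Real.exp (-(ε * t / 2)) / 2 := by
    calc I * Real.exp (-(n : ℝ) ^ (1 - δ / 2)) ≤ Real.exp Y * Real.exp (-(8 * Y)) := by
          refine mul_le_mul hI (Real.exp_le_exp.2 (by linarith)) (Real.exp_pos _).le
            (Real.exp_pos _).le
      _ = Real.exp (-(ε * t / 2)) * Real.exp (ε * t / 2 - 7 * Y) := by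
          rw [← Real.exp_add, ← Real.exp_add]
          congr 1
          ring
      _ ≤ Real.exp (-(ε * t / 2)) * Real.exp (-1) := by
          refine mul_le_mul_of_nonneg_left (Real.exp_le_exp.2 (by linarith)) (Real.exp_pos _).le
      _ < Real.exp (-(ε * t / 2)) * (1 / 2) := mul_lt_mul_of_pos_left hexp (Real.exp_pos _)
      _ = Real.exp (-(ε * t / 2)) / 2 := by ring
  rw [mul_add]
  linarith

theorem result (δ : ℝ) (hδ : 0 < δ) (hδ1 : δ ≤ 1) : ∃ m₀ : ℕ, ∀ m ≥ m₀, ∃ c : ℝ, 0 < c ∧
    Tendsto (fun n : ℕ => (Nat.card {x : Fin m → alternatingGroup (Fin n) //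
      ∀ (H : Subgroup (alternatingGroup (Fin n))) (A : Finset (alternatingGroup (Fin n))),
        (H.index : ℝ) ≤ Real.exp ((n : ℝ) ^ (1 - δ)) →
        (∀ h ∈ H, ∀ g : alternatingGroup (Fin n), h * g * h⁻¹ ∈ A ↔ g ∈ A) →
        2 * #A ≤ Fintype.card (alternatingGroup (Fin n)) →
        c * #A ≤ (#(boundary x A) : ℝ)} : ℝ) /
      (Fintype.card (alternatingGroup (Fin n)) : ℝ) ^ m) atTop (𝓝 1) := by
  obtain ⟨k₀, hk₀⟩ := Pool.Agent.Results.MP_75608d_al.FewExceptionalEigenvalues.result (δ / 2)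
    (by linarith)
  refine ⟨k₀ + 1, fun m hm => ?_⟩
  obtain ⟨εb, hεb, h⟩ := hk₀ m (by omega)
  set ε : ℝ := min εb 1 with hε
  have hε0 : 0 < ε := lt_min hεb one_pos
  have hε1 : ε ≤ 1 := min_le_right _ _
  refine ⟨(ε / 2 / 4) / (4 * (2 * m + 1)), by positivity, ?_⟩
  refine RD516.tendsto_of_bad (k := m) (fun n x =>
    ∀ (H : Subgroup (alternatingGroup (Fin n))) (A : Finset (alternatingGroup (Fin n))),
        (H.index : ℝ) ≤ Real.exp ((n : ℝ) ^ (1 - δ)) →
        (∀ h ∈ H, ∀ g : alternatingGroup (Fin n), h * g * h⁻¹ ∈ A ↔ g ∈ A) →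
        2 * #A ≤ Fintype.card (alternatingGroup (Fin n)) →
        (ε / 2 / 4) / (4 * (2 * m + 1)) * #A ≤ (#(boundary x A) : ℝ)) fun e he => ?_
  filter_upwards [RD516.bad_of_tendsto _ h e he, numbers δ hδ hδ1 (ε / 2) (by linarith)
    (by linarith)] with n hn hnum
  obtain ⟨t, hnum⟩ := hnum
  refine le_trans ?_ hn
  refine Nat.cast_le.mpr (RC14.card_mono _ _ fun x hx hcon => hx ?_)
  have hmix : ConjMixing (ε / 2) (Real.exp (-(n : ℝ) ^ (1 - δ / 2))) x :=
    mixing_of (by omega) hε0 hε1 (Real.exp_pos _).le x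
      (RD516.irrFew_of (min_le_left _ _) hcon)
  intro H A hI hA1 hA2
  refine expand x (by omega) A hA2 (ε / 2 / 4) 0 (by positivity) (by positivity) (fun f hf => ?_)
  have h1 := (hmix H t).1 f (fun h hh g => by
    have hh := hA1 h hh g
    rw [hf, hf]
    by_cases hg : g ∈ A
    · rw [if_pos hg, if_pos (hh.2 hg)]
    · rw [if_neg hg, if_neg (fun hd => hg (hh.1 hd))]) (by
    rw [sum_congr rfl fun g _ => hf g, sum_sub_distrib, sum_const, card_univ, nsmul_eq_mul]
    have hG0 : (0 : ℝ) < Fintype.card (alternatingGroup (Fin n)) := by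
      exact_mod_cast Fintype.card_pos
    rw [mul_div_cancel₀ _ hG0.ne']
    simp)
  rw [add_zero]
  by_contra hcon2
  push Not at hcon2
  have h2 := conv x f (1 - ε / 2 / 4) (by linarith) hcon2.le t
  have h0 : (0 : ℝ) ≤ ∑ g, f g ^ 2 := sum_nonneg fun g _ => sq_nonneg _
  have h3 := hnum H.index (Nat.cast_nonneg _) hI
  rcases h0.eq_or_lt with h4 | h4
  · have h5 : ∀ g, f g = 0 := by
      intro g
      have := (sum_eq_zero_iff_of_nonneg (fun g _ => sq_nonneg (f g))).1 h4.symm g (mem_univ _)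
      exact pow_eq_zero_iff (two_ne_zero) |>.1 this
    have h6 : ∑ g, (lazyStep x f g) ^ 2 = 0 := by
      refine sum_eq_zero fun g _ => ?_
      unfold lazyStep
      simp [h5]
    rw [h6, ← h4, mul_zero] at hcon2
    exact lt_irrefl _ hcon2
  · have h5 := mul_lt_mul_of_pos_right h3 h4
    linarith

end

end Pool.Agent.Results.MP_bc5a73_al.InvariantSetsExpand
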